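import Mathlib
import Pool.Agent.H.MP_b1ea19_gt.helper41.DenseLoc

/-! The closed sine curve: every subcontinuum has a connected set of local separating points,
which is dense in it unless the subcontinuum is a point, but the curve is not arcwise connected. -/

set_option autoImplicit false

namespace Pool.Agent.Results.MP_b1ea19_gt.SineCurve

open Set

/-- The closed sine curve: the closure of the graph of `sin (1 / x)`, `0 < x ≤ 1`. -/
def curve : Set (ℝ × ℝ) :=
  {q | (0 < q.1 ∧ q.1 ≤ 1 ∧ q.2 = Real.sin q.1⁻¹) ∨ (q.1 = 0 ∧ q.2 ∈ Icc (-1 : ℝ) 1)}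

/-- `L(C)`: the points `p` of `C` with an open neighbourhood `V` such that the component `K` of
`V ∩ C` that contains `p` has `K \ {p}` not connected. -/
def localSeparatingPoints {X : Type} [TopologicalSpace X] (C : Set X) : Set X :=
  {p : X | p ∈ C ∧ ∃ V : Set X, IsOpen V ∧ p ∈ V ∧
    ¬ IsPreconnected (connectedComponentIn (V ∩ C) p \ {p})}

theorem result :
    CompactSpace curve ∧ ConnectedSpace curve ∧
    (∀ C : Set curve, IsCompact C → IsConnected C →
      IsPreconnected (localSeparatingPoints C) ∧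
      (C.Nontrivial → (localSeparatingPoints C).Nonempty ∧
        C ⊆ closure (localSeparatingPoints C))) ∧
    ∃ x y : curve, (x : ℝ × ℝ) = (0, 0) ∧ (y : ℝ × ℝ) = (1, Real.sin 1) ∧ ¬ Joined x y := by
  refine ⟨inferInstanceAs (CompactSpace Pool.Agent.H.MP_b1ea19_gt.X),
    inferInstanceAs (ConnectedSpace Pool.Agent.H.MP_b1ea19_gt.X), ?_, ?_⟩
  · intro C _ hC
    refine ⟨Pool.Agent.H.MP_b1ea19_gt.loc_preconnected C hC, fun hn => ?_⟩
    have hd : C ⊆ closure (localSeparatingPoints C) :=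
      Pool.Agent.H.MP_b1ea19_gt.helper41.loc_dense C hC hn
    refine ⟨?_, hd⟩
    by_contra h
    rw [not_nonempty_iff_eq_empty] at h
    rw [h, closure_empty] at hd
    obtain ⟨a, ha, -⟩ := hn
    exact hd ha
  · refine ⟨⟨(0, 0), Or.inr ⟨rfl, by norm_num⟩⟩,
      ⟨(1, Real.sin 1), Or.inl ⟨by norm_num, le_rfl, by norm_num⟩⟩, rfl, rfl, ?_⟩
    rintro ⟨γ⟩
    refine Pool.Agent.H.MP_b1ea19_gt.no_path γ γ.continuous ?_ ?_
    · rw [γ.source]; rfl
    · rw [γ.target]; rfl

end Pool.Agent.Results.MP_b1ea19_gt.SineCurve
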